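import Pool.Agent.Helper83.EIN2.Goals

/-!
# Project EIN2 (MP_06d934_gt), packet MME: a solution gives a zero of the chart `MM`
-/

set_option autoImplicit false

namespace Pool.Agent.Helper19.EIN2

open Pool.Agent.Helper83.EIN Pool.Agent.Helper83.EIN2

/-- **MME** -/
theorem mme : Pool.Agent.Helper83.EIN2.MME := by
  intro a β t v ht ht1 hβ hβ1 h
  obtain ⟨hpos, e0, e1, e2, e3, e4, e5⟩ := h
  -- the projection identities
  have Pa := proj (hpos 1) (hpos 3) (hpos 2)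
  have Pb := proj (hpos 1) (hpos 2) (hpos 3)
  have Pc := proj (hpos 2) (hpos 3) (hpos 1)
  have Pa' := proj (hpos 1) (hpos 5) (hpos 4)
  have Pb' := proj (hpos 1) (hpos 4) (hpos 5)
  have Pc' := proj (hpos 4) (hpos 5) (hpos 1)
  have Pd := proj (hpos 2) (hpos 4) (hpos 0)
  have Pe := proj (hpos 0) (hpos 4) (hpos 2)
  have Pf := proj (hpos 0) (hpos 2) (hpos 4)
  have Qd := proj (hpos 3) (hpos 5) (hpos 0)
  have Qe := proj (hpos 0) (hpos 5) (hpos 3)
  have Qf := proj (hpos 0) (hpos 3) (hpos 5)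
  rw [Pool.Agent.Helper83.EIN2.cs_comm (v 3) (v 2)] at Pa
  rw [Pool.Agent.Helper83.EIN2.cs_comm (v 2) (v 1), Pool.Agent.Helper83.EIN2.cs_comm (v 3) (v 1)] at Pc
  rw [Pool.Agent.Helper83.EIN2.cs_comm (v 5) (v 4)] at Pa'
  rw [Pool.Agent.Helper83.EIN2.cs_comm (v 4) (v 1), Pool.Agent.Helper83.EIN2.cs_comm (v 5) (v 1)] at Pc'
  rw [Pool.Agent.Helper83.EIN2.cs_comm (v 2) (v 0), Pool.Agent.Helper83.EIN2.cs_comm (v 4) (v 0)] at Pd
  rw [Pool.Agent.Helper83.EIN2.cs_comm (v 4) (v 2)] at Pe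
  rw [Pool.Agent.Helper83.EIN2.cs_comm (v 3) (v 0), Pool.Agent.Helper83.EIN2.cs_comm (v 5) (v 0)] at Qd
  rw [Pool.Agent.Helper83.EIN2.cs_comm (v 5) (v 3)] at Qe
  obtain ⟨p, hp⟩ : ∃ p, p = parMM t v := ⟨_, rfl⟩
  rw [← hp]
  have t0 : t ≠ 0 := ht.ne'
  have p0 : p 0 = cs (v 0) (v 4) (v 2) := by rw [hp]; rfl
  have p1 : p 1 = (cs (v 0) (v 4) (v 2) + cs (v 0) (v 5) (v 3)) / t := by rw [hp]; rfl
  have p2 : p 2 = (1 - cs (v 1) (v 2) (v 3)) / t := by rw [hp]; rfl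
  have p3 : p 3 = (1 - cs (v 1) (v 3) (v 2)) / t := by rw [hp]; rfl
  have p4 : p 4 = (1 + cs (v 2) (v 3) (v 1)) / t := by rw [hp]; rfl
  have p5 : p 5 = (cs (v 1) (v 2) (v 3) - cs (v 1) (v 4) (v 5)) / t ^ 2 := by rw [hp]; rfl
  have p6 : p 6 = (cs (v 1) (v 3) (v 2) - cs (v 1) (v 5) (v 4)) / t ^ 2 := by rw [hp]; rfl
  have p7 : p 7 = (cs (v 4) (v 5) (v 1) - cs (v 2) (v 3) (v 1)) / t ^ 2 := by rw [hp]; rfl
  have p8 : p 8 = (1 - cs (v 2) (v 4) (v 0)) / t ^ 2 := by rw [hp]; rfl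
  have p9 : p 9 = (1 - cs (v 3) (v 5) (v 0)) / t ^ 2 := by rw [hp]; rfl
  have p10 : p 10 = (cs (v 0) (v 4) (v 2) + cs (v 0) (v 2) (v 4)) / t := by rw [hp]; rfl
  have p11 : p 11 = (cs (v 0) (v 5) (v 3) + cs (v 0) (v 3) (v 5)) / t := by rw [hp]; rfl
  have c0 : cs (v 0) (v 4) (v 2) = p 0 := p0.symm
  have c1 : cs (v 0) (v 5) (v 3) = -p 0 + t * p 1 := by
    rw [p1, p0]; field_simp; ring
  have c2 : cs (v 1) (v 2) (v 3) = 1 - t * p 2 := by
    rw [p2]; field_simp; ring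
  have c3 : cs (v 1) (v 3) (v 2) = 1 - t * p 3 := by
    rw [p3]; field_simp; ring
  have c4 : cs (v 2) (v 3) (v 1) = -1 + t * p 4 := by
    rw [p4]; field_simp; ring
  have c5 : cs (v 1) (v 4) (v 5) = 1 - t * (p 2 + t * p 5) := by
    rw [p2, p5]; field_simp; ring
  have c6 : cs (v 1) (v 5) (v 4) = 1 - t * (p 3 + t * p 6) := by
    rw [p3, p6]; field_simp; ring
  have c7 : cs (v 4) (v 5) (v 1) = -1 + t * (p 4 + t * p 7) := by
    rw [p4, p7]; field_simp; ring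
  have c8 : cs (v 2) (v 4) (v 0) = 1 - t ^ 2 * p 8 := by
    rw [p8]; field_simp; ring
  have c9 : cs (v 3) (v 5) (v 0) = 1 - t ^ 2 * p 9 := by
    rw [p9]; field_simp; ring
  have c10 : cs (v 0) (v 2) (v 4) = -p 0 + t * p 10 := by
    rw [p10, p0]; field_simp; ring
  have c11 : cs (v 0) (v 3) (v 5) = -(-p 0 + t * p 1) + t * p 11 := by
    rw [p11, p1, p0]; field_simp; ring
  clear p0 p1 p2 p3 p4 p5 p6 p7 p8 p9 p10 p11 hp
  simp only [c0, c1, c2, c3, c4, c5, c6, c7, c8, c9, c10, c11] at e0 e1 e2 e3 e4 e5 Pa Pb Pc Pa' Pb' Pc' Pd Pe Pf Qd Qe Qf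
  clear c0 c1 c2 c3 c4 c5 c6 c7 c8 c9 c10 c11
  have hlen : lenMM a β t p = v := by
    funext i
    fin_cases i
    · show t * (1 + (1 - t) * t * (β * p 8 + (1 - β) * p 9)) = v 0
      linear_combination -e0
    · show 1 + t - t ^ 2 * (a * p 4 + (1 - a) * (p 4 + t * p 7)) = v 1
      linear_combination -e1
    · show 1 - t * (1 - a) * p 0 - (1 - t) * (1 - β) * (1 - t * p 3) = v 2
      linear_combination -e2
    · show 1 - t * (1 - a) * (-p 0 + t * p 1) - (1 - t) * β * (1 - t * p 2) = v 3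
      linear_combination -e3
    · show 1 - t * a * (-p 0 + t * p 10) - (1 - t) * (1 - β) * (1 - t * (p 3 + t * p 6)) = v 4
      linear_combination -e4
    · show 1 - t * a * (-(-p 0 + t * p 1) + t * p 11) -
        (1 - t) * β * (1 - t * (p 2 + t * p 5)) = v 5
      linear_combination -e5
  refine ⟨hlen, ?_⟩
  have t2 : t ^ 2 ≠ 0 := pow_ne_zero 2 t0
  funext i
  fin_cases i
  · simp only [FMM, hlen]
    refine mul_left_cancel₀ t0 ?_
    simp only [Fin.zero_eta, Matrix.cons_val, Pi.zero_apply]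
    linear_combination -e2 - e3 + e1 + Pa
  · simp only [FMM, hlen]
    refine mul_left_cancel₀ t0 ?_
    simp only [Fin.mk_one, Matrix.cons_val, Pi.zero_apply]
    linear_combination -e2 - e3 + e1 + Pb
  · simp only [FMM, hlen]
    refine mul_left_cancel₀ t2 ?_
    simp only [Fin.reduceFinMk, Matrix.cons_val, Pi.zero_apply]
    linear_combination Pc + e2 + e3 - e1 - t * p 2 * e2 - t * p 3 * e3
  · simp only [FMM, hlen]
    refine mul_left_cancel₀ t2 ?_
    simp only [Fin.reduceFinMk, Matrix.cons_val, Pi.zero_apply]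
    linear_combination Pc' + e4 + e5 - e1 - t * (p 2 + t * p 5) * e4 - t * (p 3 + t * p 6) * e5
  · simp only [FMM, hlen]
    refine mul_left_cancel₀ t2 ?_
    simp only [Fin.reduceFinMk, Matrix.cons_val, Pi.zero_apply]
    linear_combination t * (p 4 + t * p 7) * (Qf + (-p 0 + t * p 1) * e0) + Pa' - Pa - e4 - e5 +
      e2 + e3
  · simp only [FMM, hlen]
    refine mul_left_cancel₀ t2 ?_
    simp only [Fin.reduceFinMk, Matrix.cons_val, Pi.zero_apply]
    linear_combination t * (p 4 + t * p 7) * (Pf + p 0 * e0) + Pb' - Pb - e4 - e5 + e2 + e3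
  · simp only [FMM, hlen]
    refine mul_left_cancel₀ t2 ?_
    simp only [Fin.reduceFinMk, Matrix.cons_val, Pi.zero_apply]
    linear_combination Pf + p 0 * e0 - e4 + e2
  · simp only [FMM, hlen]
    refine mul_left_cancel₀ t2 ?_
    simp only [Fin.reduceFinMk, Matrix.cons_val, Pi.zero_apply]
    linear_combination Qf + (-p 0 + t * p 1) * e0 - e5 + e3
  · simp only [FMM, hlen]
    refine mul_left_cancel₀ t2 ?_
    simp only [Fin.reduceFinMk, Matrix.cons_val, Pi.zero_apply]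
    linear_combination v 0 * Pd - v 2 * Pe + (v 0 * p 0 - v 2) * Pf -
      e0 * ((t * (1 + (1 - t) * t * (β * p 8 + (1 - β) * p 9)) + v 0) * (1 - p 0 ^ 2) +
        v 2 * (t ^ 2 * p 8) * p 0)
  · simp only [FMM, hlen]
    refine mul_left_cancel₀ t2 ?_
    simp only [Fin.reduceFinMk, Matrix.cons_val, Pi.zero_apply]
    linear_combination v 0 * Qd - v 3 * Qe + (v 0 * (-p 0 + t * p 1) - v 3) * Qf -
      e0 * ((t * (1 + (1 - t) * t * (β * p 8 + (1 - β) * p 9)) + v 0) *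
        (1 - (-p 0 + t * p 1) ^ 2) + v 3 * (t ^ 2 * p 9) * (-p 0 + t * p 1))
  · simp only [FMM, hlen]
    refine mul_left_cancel₀ t2 ?_
    simp only [Fin.reduceFinMk, Matrix.cons_val, Pi.zero_apply]
    linear_combination -Pe - Pf - e0 * (t * p 10)
  · simp only [FMM, hlen]
    refine mul_left_cancel₀ t2 ?_
    simp only [Fin.reduceFinMk, Matrix.cons_val, Pi.zero_apply]
    linear_combination -Qe - Qf - e0 * (t * p 11)

end Pool.Agent.Helper19.EIN2
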